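import Pool.Agent.helper76.FF2.Spec

set_option autoImplicit false

namespace Pool.Agent.FF2

open Polynomial

theorem AVO (F : Type*) [Field F] [Fintype F] [CharP F 2] : AVO_stmt F := by
  classical
  intro π hi G f hG
  have : Fact (Irreducible π) := ⟨hi⟩
  have hfin : Module.Finite F (AdjoinRoot π) := (AdjoinRoot.powerBasis hi.ne_zero).finite
  have : Finite (AdjoinRoot π) := Module.finite_of_finite F
  have : Fintype (AdjoinRoot π) := Fintype.ofFinite _
  have hcard : Fintype.card (AdjoinRoot π) = Fintype.card F ^ π.natDegree := by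
    rw [Module.card_eq_pow_finrank (K := F) (V := AdjoinRoot π)]
    congr 1
    rw [(AdjoinRoot.powerBasis hi.ne_zero).finrank, AdjoinRoot.powerBasis_dim]
  by_contra hcon
  push Not at hcon
  have h1 : ∀ z : AdjoinRoot π, ∃ g : G, AdjoinRoot.mk π f + AdjoinRoot.mk π g + z ^ 4 = 0 := by
    intro z
    obtain ⟨y, rfl⟩ := AdjoinRoot.mk_surjective z
    obtain ⟨g, hg, hd⟩ := hcon y
    refine ⟨⟨g, hg⟩, ?_⟩
    rw [← map_pow, ← map_add, ← map_add]
    exact AdjoinRoot.mk_eq_zero.mpr hd
  choose φ hφ using h1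
  have hchar : CharP (AdjoinRoot π) 2 :=
    charP_of_injective_algebraMap (algebraMap F (AdjoinRoot π)).injective 2
  have hinj : Function.Injective φ := by
    intro z z' h
    have e1 := hφ z
    have e2 := hφ z'
    rw [h] at e1
    have e3 : (z ^ 2) ^ 2 = (z' ^ 2) ^ 2 := by
      linear_combination e1 - e2
    have e4 : z ^ 2 = z' ^ 2 :=
      frobenius_inj (AdjoinRoot π) 2 (by rw [frobenius_def, frobenius_def]; exact e3)
    exact frobenius_inj (AdjoinRoot π) 2 (by rw [frobenius_def, frobenius_def]; exact e4)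
  have h2 := Fintype.card_le_of_injective φ hinj
  rw [hcard, Fintype.card_coe] at h2
  omega

end Pool.Agent.FF2
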